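import Pool.Agent.W420.NS.Stm

set_option autoImplicit false

namespace Pool.Agent.W358.NS.Cnt

open Pool.Agent.W420.NS

theorem count_ends {V : Type} [Fintype V] [DecidableEq V] (l : List (V × Fin 3))
    (h : ∀ x, l.count x = 1) (X : V → Bool) :
    l.countP (fun t => X t.1) = 3 * Fintype.card {x // X x = true} := by
  have hperm : l.Perm (Finset.univ : Finset (V × Fin 3)).toList := by
    rw [List.perm_iff_count]
    intro a
    rw [h a, List.count_eq_one_of_mem (Finset.nodup_toList _) (by simp)]
  rw [hperm.countP_eq]
  have h1 : (Finset.univ : Finset (V × Fin 3)).toList.countP (fun t => X t.1) =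
      (Finset.univ.filter (fun t : V × Fin 3 => X t.1 = true)).card := by
    rw [List.countP_eq_length_filter, ← Finset.length_toList]
    apply List.Perm.length_eq
    rw [List.perm_ext_iff_of_nodup ((Finset.nodup_toList _).filter _) (Finset.nodup_toList _)]
    intro a
    simp
  have h2 : (Finset.univ.filter (fun t : V × Fin 3 => X t.1 = true)) =
      (Finset.univ.filter (fun x : V => X x = true)) ×ˢ (Finset.univ : Finset (Fin 3)) := by
    ext t
    simp
  rw [h1, h2, Finset.card_product, Fintype.card_subtype, Finset.card_univ, Fintype.card_fin]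
  ring

theorem count_edges {V : Type} (X : V → Bool) (E : List ((V × Fin 3) × (V × Fin 3))) :
    (E.flatMap fun e => [e.1, e.2]).countP (fun t => X t.1) =
      (E.filter fun e => X e.1.1 != X e.2.1).length +
        2 * (E.filter fun e => X e.1.1 && X e.2.1).length := by
  induction E with
  | nil => simp
  | cons e E ih =>
    rw [List.flatMap_cons, List.countP_append, ih, List.filter_cons, List.filter_cons]
    cases h1 : X e.1.1 <;> cases h2 : X e.2.1 <;> simp [h1, h2] <;> omega

theorem x : Pool.Agent.W420.NS.S_CNT := by
  intro P hD hS X
  have h1 := count_ends (ends P) hS X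
  have h2 := count_edges X P.E
  unfold ends at h1
  rw [hD, List.nil_append] at h1
  unfold cutN
  rw [← h2, h1]

end Pool.Agent.W358.NS.Cnt
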